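import Pool.Agent.R489.HB.Stm

set_option autoImplicit false

namespace Pool.Agent.R511.HB

open Finset Pool.Agent.R489.HB

theorem even_tri {W : Type} [DecidableEq W] (T' : Finset W) (h : T'.card = 3) (v : W) :
    Even ((T'.powersetCard 2).filter (fun e => v ∈ e)).card := by
  by_cases hv : v ∈ T'
  · have h1 := Finset.card_filter_add_card_filter_not (s := T'.powersetCard 2)
      (p := fun e => v ∈ e)
    have h2 : (T'.powersetCard 2).filter (fun e => ¬ v ∈ e) = (T'.erase v).powersetCard 2 := by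
      ext e
      simp only [mem_filter, mem_powersetCard, subset_erase]
      tauto
    rw [h2, card_powersetCard, card_powersetCard, card_erase_of_mem hv, h] at h1
    have h3 : (3 - 1 : ℕ).choose 2 = 1 := by decide
    have h4 : (3 : ℕ).choose 2 = 3 := by decide
    rw [h3, h4] at h1
    exact ⟨1, by omega⟩
  · have h2 : (T'.powersetCard 2).filter (fun e => v ∈ e) = ∅ := by
      refine Finset.filter_eq_empty_iff.2 ?_
      intro e he hve
      exact hv ((mem_powersetCard.1 he).1 hve)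
    rw [h2]
    exact ⟨0, rfl⟩

theorem card_fc_add {W : Type} [DecidableEq W] {Φ Ψ : Finset (Finset W)} (h : Ψ ⊆ Φ)
    (e : Finset W) : (fc Ψ e).card + (fc (Φ \ Ψ) e).card = (fc Φ e).card := by
  unfold fc
  rw [← Finset.card_union_of_disjoint]
  · congr 1
    rw [← Finset.filter_union, Finset.union_sdiff_of_subset h]
  · exact Finset.disjoint_filter_filter (Finset.disjoint_sdiff)

theorem SPLA : S_SPLA := by
  intro W _ Φ T T' hΦ hT hc hT' hsub
  obtain ⟨Ψ, hΨ, hodd⟩ := hΦ.sph (T'.powersetCard 2) hsub (even_tri T' hc)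
  have hadd := fun e => card_fc_add hΨ e
  have h1 : ∀ e ∈ T'.powersetCard 2, (fc Ψ e).card = 1 ∧ (fc (Φ \ Ψ) e).card = 1 := by
    intro e he
    have h2 := hΦ.two e (hsub he)
    have h3 := hadd e
    have h4 : Odd (fc Ψ e).card := (hodd e (hsub he)).1 he
    obtain ⟨m, hm⟩ := h4
    omega
  have hside : ∀ e ∈ edg Φ, e ∉ T'.powersetCard 2 → fc Ψ e = ∅ ∨ fc (Φ \ Ψ) e = ∅ := by
    intro e he hne
    have h2 := hΦ.two e he
    have h3 := hadd e
    have h4 : ¬ Odd (fc Ψ e).card := fun h => hne ((hodd e he).2 h)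
    rw [Nat.not_odd_iff_even] at h4
    obtain ⟨m, hm⟩ := h4
    rw [← Finset.card_eq_zero, ← Finset.card_eq_zero]
    omega
  by_cases hTΨ : T ∈ Ψ
  · exact ⟨Ψ, Φ \ Ψ, hTΨ, ⟨Finset.disjoint_sdiff, Finset.union_sdiff_of_subset hΨ,
      fun e he => (h1 e he).1, fun e he => (h1 e he).2, hside⟩⟩
  · exact ⟨Φ \ Ψ, Ψ, Finset.mem_sdiff.2 ⟨hT, hTΨ⟩, ⟨Finset.sdiff_disjoint,
      Finset.sdiff_union_of_subset hΨ, fun e he => (h1 e he).2, fun e he => (h1 e he).1,
      fun e he hne => (hside e he hne).symm⟩⟩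

end Pool.Agent.R511.HB

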